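import Pool.Agent.Run7.h284.DL.Asy

/-!
# Depth-two circuits of polynomial threshold gates do not learn DNF formulas

The negative answer to Q1 for learning procedures (learner followed by the evaluation of its hypothesis at a fresh
point) that are computed by circuits with two layers of threshold gates, where the inputs of the first layer are
arbitrary functions of all labels, all random bits and `t` attributes of the examples.  Polynomial threshold gates
of degree `t` in all bits of the labelled examples, of the fresh point and the random bits are a special case.  The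
degree `t` may grow up to `(1 - ε) log log m`, the size and the weights of the circuit up to `m ^ ((log m) ^ (ε / 2))`
and `2 ^ (m ^ ((log m) ^ (ε / 2)))`, and the number of examples is arbitrary.
-/

open DNFPrediction Filter

/-- 1. Let `m ≥ 20736`, `l = log₂ m` and `2 (t + 1) ≤ l`. There is a fixed list of DNF formulas with at most `m` terms,
each with at most `l` literals, such that on the average over the list
(a) every threshold gate whose inputs read at most `t` attributes each and whose absolute values sum to less than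
`2 ^ B` guesses the label of a fresh example, for every number `N` of labelled examples, with a probability that differs
from `1 / 2` by at most `3 (B + 1) (t + 2) ^ 3 * 2 ^ (-l ^ 2 / ((t + 1) 2 ^ (t + 2)))`,
(b) every threshold gate with integer weights of total absolute value `W` on top of such gates errs with probability
at least `1 / (2 W + 2)` up to the same kind of error term.

2. Let `ε > 0`. For all large `m` and all `t ≤ (1 - ε) log₂ log₂ m`, with `a = (log₂ m) ^ (1 + ε / 2)`: if `B ≤ 2 ^ a`
then for every gate as in (a) there is a DNF formula with at most `m` terms for which it guesses right with probability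
at most `1 / 2 + 2 ^ (-a)`, and if also `W ≤ 2 ^ a` then for every circuit as in (b) there is one for which it errs with
probability at least `1 / (3 W + 3)`. -/
theorem Pool.Agent.Results.MP_cba12a_lc.PolynomialThresholdPredictors.result :
    (∀ m t : ℕ, 20736 ≤ m → 2 * ((t : ℝ) + 1) ≤ Real.logb 2 m →
      ∃ (r : ℕ) (F : Fin (r + 1) → DNF m),
        (∀ i, (F i).card ≤ m ∧ ∀ c ∈ F i, (c.card : ℝ) ≤ Real.logb 2 m) ∧
        (∀ (N R B : ℕ) (P : ThresholdPredictor m N R), P.ReadsLE t → P.BitsLE B →
          |(∑ i, P.success (F i).eval) / (r + 1) - 1 / 2| ≤ 3 * (B + 1) * (t + 2) ^ 3 *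
            (2 : ℝ) ^ (-(Real.logb 2 m ^ 2 / ((t + 1) * 2 ^ (t + 2))))) ∧
        (∀ (N R B : ℕ) (P : DepthTwoPredictor m N R), (∀ g, (P.gate g).ReadsLE t) →
          (∀ g, (P.gate g).BitsLE B) →
          (∑ i, P.success (F i).eval) / (r + 1) ≤ 1 - 1 / (2 * P.total + 2) +
            2 * (B + 1) * (t + 2) ^ 3 *
            (2 : ℝ) ^ (-(Real.logb 2 m ^ 2 / ((t + 1) * 2 ^ (t + 2)))))) ∧
    (∀ ε : ℝ, 0 < ε → ∀ᶠ m : ℕ in atTop, ∀ t : ℕ,
      (t : ℝ) ≤ (1 - ε) * Real.logb 2 (Real.logb 2 m) →
      (∀ (N R B : ℕ) (P : ThresholdPredictor m N R), P.ReadsLE t → P.BitsLE B →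
        (B : ℝ) ≤ (2 : ℝ) ^ ((Real.logb 2 m) ^ (1 + ε / 2)) →
        ∃ F : DNF m, F.card ≤ m ∧ (∀ c ∈ F, (c.card : ℝ) ≤ Real.logb 2 m) ∧
          P.success F.eval ≤ 1 / 2 + (2 : ℝ) ^ (-(Real.logb 2 m) ^ (1 + ε / 2))) ∧
      (∀ (N R B : ℕ) (P : DepthTwoPredictor m N R), (∀ g, (P.gate g).ReadsLE t) →
        (∀ g, (P.gate g).BitsLE B) → (B : ℝ) ≤ (2 : ℝ) ^ ((Real.logb 2 m) ^ (1 + ε / 2)) →
        (P.total : ℝ) ≤ (2 : ℝ) ^ ((Real.logb 2 m) ^ (1 + ε / 2)) →
        ∃ F : DNF m, F.card ≤ m ∧ (∀ c ∈ F, (c.card : ℝ) ≤ Real.logb 2 m) ∧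
          P.success F.eval ≤ 1 - 1 / (3 * P.total + 3))) :=
  ⟨fun m t hm ht => Pool.Agent.Run7.h284.DL.explicit m t hm ht,
    fun ε hε => Pool.Agent.Run7.h284.DL.growing ε hε⟩
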