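import Pool.Agent.Run7.h284.DL.Final2

/-!
# Threshold and symmetric gates on top of constant-depth circuits do not learn DNF formulas

The negative answer to Q1 for learning procedures (learner followed by the evaluation of its hypothesis at a fresh
point) that are computed by polynomial-size circuits of the following kind: an integer-weight threshold gate of
polynomial weight on top; below it arbitrary functions of a constant number of threshold gates with arbitrary real
weights, or weighted symmetric gates (for example gates that count modulo a number); below them Boolean circuits of
constant depth with AND, OR and NOT gates; at the bottom arbitrary functions of all labels, all random bits and a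
constant number of attributes of the examples.  The number of examples is arbitrary.
-/

open DNFPrediction Filter

/-- For all constants `c`, `d` there is a constant `S` such that for all large `m` there is a probability distribution
`μ` on the DNF formulas in `m` variables with at most `S` terms, each with at most `S` literals, with the following
two properties, for every number `N` of labelled examples and every number `R` of random bits.

(a) Every predictor that consists of a circuit with AND, OR and NOT gates and at most `m ^ c` nodes (leaves and gates),
whose leaves read at most `c` attributes each, and that guesses an arbitrary Boolean function of `c` gates, each of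
them a threshold gate with arbitrary real weights or a weighted symmetric gate of weight at most `m ^ c`, whose inputs
are nodes of depth at most `d`, guesses the label of a fresh example, on the average over `μ`, with a probability that
differs from `1 / 2` by at most `1 / m ^ c`.

(b) Every threshold gate with integer weights of total absolute value `W ≤ m ^ c` on top of such predictors errs, on
the average over `μ`, with probability at least `1 / (3 W + 3)`. -/
theorem Pool.Agent.Results.MP_cba12a_lc.ThresholdOfConstantDepth.result :
    ∀ c d : ℕ, ∃ S : ℕ, ∀ᶠ m : ℕ in atTop, ∃ μ : DNF m → ℝ,
      (∀ F, 0 ≤ μ F) ∧ ∑ F, μ F = 1 ∧
      (∀ F, μ F ≠ 0 → F.card ≤ S ∧ ∀ t ∈ F, t.card ≤ S) ∧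
      (∀ (N R : ℕ) (P : NodePredictor m N R), P.nodes ≤ m ^ c → P.ReadsLE c →
        P.TopLE d (m ^ c) c → |∑ F, μ F * P.success F.eval - 1 / 2| ≤ 1 / (m : ℝ) ^ c) ∧
      (∀ (N R : ℕ) (P : MajorityPredictor m N R), (∀ g, (P.gate g).nodes ≤ m ^ c) →
        (∀ g, (P.gate g).ReadsLE c) → (∀ g, (P.gate g).TopLE d (m ^ c) c) → P.total ≤ m ^ c →
        ∑ F, μ F * P.success F.eval ≤ 1 - 1 / (3 * P.total + 3)) :=
  fun c d => Pool.Agent.Run7.h284.DL.constant_depth c d
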